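import Pool.Agent.Helper32_ND.Stmts

/-!
# The n/d theorem, module COMM: commutation of the shift operators (helper46)
-/

set_option autoImplicit false
set_option linter.unusedVariables false
set_option linter.unusedSectionVars false

namespace Pool.Agent.ND.H46

open Finset Pool.Agent.ND

variable {ι : Type} [Fintype ι] [DecidableEq ι] {M : ℕ} {A : Arr ι (M + 2)} {K : Type} [Field K]
  [Algebra ℂ K]

theorem pr_e {n r : ℕ} {A : Arr ι n} (X : Finset ι) (F : Fin r → ι) :
    pr r X (e A K F) = if A.cl F = X then e A K F else 0 := by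
  unfold pr
  rw [dg_e]
  split_ifs
  · rw [one_smul]
  · rw [zero_smul]

/-- weights of the boundary -/
noncomputable def Wop (P : Pts A) : OS A K (M + 1) →ₗ[K] OS A K M :=
  ∑ X : Finset ι, (dg A M fun Y => algebraMap ℂ K (P.u Y X)).comp
    ((bd A K M).comp (pr (M + 1) X))

/-- weights of the wedge product -/
noncomputable def Uop (P : Pts A) (ρ : ι → K) : OS A K M →ₗ[K] OS A K (M + 1) :=
  ∑ X : Finset ι, (pr (M + 1) X).comp
    ((wX M ρ univ).comp (dg A M fun Y => algebraMap ℂ K (P.u Y X)))

theorem Wop_e (P : Pts A) (F : Fin (M + 1) → ι) : Wop P (e A K F)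
    = ∑ k : Fin (M + 1), (((-1 : K) ^ (k : ℕ)) *
      algebraMap ℂ K (P.u (A.cl (F ∘ k.succAbove)) (A.cl F))) • e A K (F ∘ k.succAbove) := by
  unfold Wop
  rw [LinearMap.sum_apply, Finset.sum_eq_single (A.cl F)]
  · rw [LinearMap.comp_apply, LinearMap.comp_apply, pr_e, if_pos rfl, bd_e, map_sum]
    refine Finset.sum_congr rfl fun k _ => ?_
    rw [map_smul, dg_e, smul_smul]
  · intro X _ hX
    rw [LinearMap.comp_apply, LinearMap.comp_apply, pr_e, if_neg (Ne.symm hX), map_zero, map_zero]
  · intro h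
    exact absurd (Finset.mem_univ _) h

theorem Uop_e (P : Pts A) (ρ : ι → K) (G : Fin M → ι) : Uop P ρ (e A K G)
    = ∑ i : ι, (ρ i * algebraMap ℂ K (P.u (A.cl G) (A.cl (Fin.cons i G : Fin (M + 1) → ι)))) •
      e A K (Fin.cons i G : Fin (M + 1) → ι) := by
  unfold Uop
  rw [LinearMap.sum_apply]
  have h : ∀ X : Finset ι, ((pr (M + 1) X).comp
      ((wX M ρ univ).comp (dg A M fun Y => algebraMap ℂ K (P.u Y X)))) (e A K G)
      = ∑ i : ι, if A.cl (Fin.cons i G : Fin (M + 1) → ι) = X then
        (ρ i * algebraMap ℂ K (P.u (A.cl G) X)) • e A K (Fin.cons i G : Fin (M + 1) → ι)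
        else 0 := by
    intro X
    rw [LinearMap.comp_apply, LinearMap.comp_apply, dg_e, wX_apply, map_sum]
    refine Finset.sum_congr rfl fun i _ => ?_
    rw [map_smul, map_smul, wd_e, map_smul, pr_e]
    split_ifs
    · rw [smul_smul]
    · rw [smul_zero, smul_zero]
  rw [Finset.sum_congr rfl fun X _ => h X, Finset.sum_comm]
  refine Finset.sum_congr rfl fun i _ => ?_
  rw [Finset.sum_eq_single (A.cl (Fin.cons i G : Fin (M + 1) → ι))]
  · rw [if_pos rfl]
  · intro X _ hX
    rw [if_neg (Ne.symm hX)]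
  · intro h
    exact absurd (Finset.mem_univ _) h

/-- `M_j` on a wedge product with `e_j` -/
theorem Mj_wd (P : Pts A) (j : ι) (x : OS A K M) : Mj P j (wd A K M j x) = 0 := by
  have h : (Mj P j).comp (wd A K M j) = 0 := by
    refine hom_ext fun G => ?_
    rw [LinearMap.comp_apply, wd_e, LinearMap.zero_apply]
    unfold Mj
    rw [dg_e]
    by_cases hi : A.Ind (Fin.cons j G : Fin (M + 1) → ι)
    · have h2 : dotProduct (A.L j) (P.v (A.cl (Fin.cons j G : Fin (M + 1) → ι))) = 0 := by
        rw [P.vmem _ hi]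
        have := self_mem_cl (A := A) (Fin.cons j G : Fin (M + 1) → ι) 0
        rwa [Fin.cons_zero] at this
      rw [h2, map_zero, zero_smul]
    · rw [e_dep hi, smul_zero]
  exact LinearMap.congr_fun h x

/-- `M_j ρ^ = ρ^ P_j + U Q_j` -/
theorem Mj_wX (P : Pts A) (ρ : ι → K) (j : ι) (x : OS A K M) :
    Mj P j (wX M ρ univ x)
      = wX M ρ univ (dg A M (fun Y => algebraMap ℂ K (dotProduct (A.L j) (P.p Y))) x)
        + Uop P ρ (dg A M (fun Y => algebraMap ℂ K (dotProduct (A.L j) (P.q Y))) x) := by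
  have h : (Mj P j).comp (wX M ρ univ)
      = (wX M ρ univ).comp (dg A M (fun Y => algebraMap ℂ K (dotProduct (A.L j) (P.p Y))))
        + (Uop P ρ).comp (dg A M (fun Y => algebraMap ℂ K (dotProduct (A.L j) (P.q Y)))) := by
    refine hom_ext fun G => ?_
    rw [LinearMap.add_apply, LinearMap.comp_apply, LinearMap.comp_apply, LinearMap.comp_apply,
      dg_e, dg_e, map_smul, map_smul, Uop_e, wX_apply, map_sum, Finset.smul_sum, Finset.smul_sum,
      ← Finset.sum_add_distrib]
    refine Finset.sum_congr rfl fun i _ => ?_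
    rw [map_smul, wd_e]
    unfold Mj
    rw [dg_e]
    by_cases hi : A.Ind (Fin.cons i G : Fin (M + 1) → ι)
    · have h2 := P.line _ hi 0
      rw [cons_succAbove_zero] at h2
      rw [h2, dotProduct_add, dotProduct_smul, smul_eq_mul, map_add, map_mul, smul_smul,
        smul_smul, smul_smul, ← add_smul]
      congr 1
      ring
    · rw [e_dep hi]
      simp
  exact LinearMap.congr_fun h x

/-- `d M_k = P_k d + Q_k W` -/
theorem bd_Mj (P : Pts A) (j : ι) (x : OS A K (M + 1)) :
    bd A K M (Mj P j x)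
      = dg A M (fun Y => algebraMap ℂ K (dotProduct (A.L j) (P.p Y))) (bd A K M x)
        + dg A M (fun Y => algebraMap ℂ K (dotProduct (A.L j) (P.q Y))) (Wop P x) := by
  have h : (bd A K M).comp (Mj P j)
      = (dg A M (fun Y => algebraMap ℂ K (dotProduct (A.L j) (P.p Y)))).comp (bd A K M)
        + (dg A M (fun Y => algebraMap ℂ K (dotProduct (A.L j) (P.q Y)))).comp (Wop P) := by
    refine hom_ext fun F => ?_
    by_cases hi : A.Ind F
    · rw [LinearMap.add_apply, LinearMap.comp_apply, LinearMap.comp_apply, LinearMap.comp_apply]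
      unfold Mj
      rw [dg_e, map_smul, bd_e, Wop_e, map_sum, map_sum, Finset.smul_sum,
        ← Finset.sum_add_distrib]
      refine Finset.sum_congr rfl fun k _ => ?_
      rw [map_smul, map_smul, dg_e, dg_e, P.line _ hi k, dotProduct_add, dotProduct_smul,
        smul_eq_mul, map_add, map_mul, smul_smul, smul_smul, smul_smul, ← add_smul]
      congr 1
      ring
    · rw [e_dep hi, map_zero, map_zero]
  exact LinearMap.congr_fun h x

theorem dg_comm {n r : ℕ} {A : Arr ι n} (w w' : Finset ι → K) (x : OS A K r) :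
    dg A r w (dg A r w' x) = dg A r w' (dg A r w x) := by
  rw [dg_dg, dg_dg]
  congr 2
  funext X
  exact mul_comm _ _

theorem key (P : Pts A) (ρ : ι → K) (j k : ι) (x : OS A K (M + 2)) :
    wX (M + 1) ρ univ (Mj P j (wX M ρ univ (bd A K M (Mj P k (bd A K (M + 1) x)))))
      = wX (M + 1) ρ univ (Uop P ρ (dg A M (fun Y => algebraMap ℂ K (dotProduct (A.L j) (P.q Y)))
        (dg A M (fun Y => algebraMap ℂ K (dotProduct (A.L k) (P.q Y)))
          (Wop P (bd A K (M + 1) x))))) := by
  rw [Mj_wX, map_add, wX_wX, zero_add, bd_Mj, bd_bd, map_zero, zero_add]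

theorem exp (P : Pts A) (ρ : ι → K) (j k : ι) (x : OS A K (M + 2)) :
    T P ρ j (T P (fun i => ρ i + ev j i) k x)
      = (∑ i, ρ i + 1) • wX (M + 1) ρ univ (Mj P j (Mj P k (bd A K (M + 1) x)))
        - wX (M + 1) ρ univ (Mj P j (wX M ρ univ (bd A K M (Mj P k (bd A K (M + 1) x))))) := by
  rw [T_apply, T_apply, bd_wX]
  have h1 : ∑ i, (ρ i + ev (K := K) j i) = ∑ i, ρ i + 1 := by
    rw [Finset.sum_add_distrib]
    congr 1
    unfold ev
    rw [Finset.sum_eq_single j]
    · rw [Pi.single_eq_same]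
    · intro i _ hi
      rw [Pi.single_eq_of_ne hi]
    · intro h
      exact absurd (Finset.mem_univ _) h
  have h2 : ∀ z : OS A K M, wX M (fun i => ρ i + ev j i) univ z
      = wX M ρ univ z + wd A K M j z := by
    intro z
    rw [wX_apply, wX_apply]
    simp only [add_smul]
    rw [Finset.sum_add_distrib]
    congr 1
    unfold ev
    rw [Finset.sum_eq_single j]
    · rw [Pi.single_eq_same, one_smul]
    · intro i _ hi
      rw [Pi.single_eq_of_ne hi, zero_smul]
    · intro h
      exact absurd (Finset.mem_univ _) h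
  rw [h1, h2, map_sub, map_smul, map_add, Mj_wd, add_zero, map_sub, map_smul]

theorem comm : CommStmt := by
  intro ι _ _ M A P K _ _ ρ j k x
  rw [exp, exp, key, key]
  congr 1
  · congr 2
    unfold Mj
    exact dg_comm _ _ _
  · congr 2
    exact dg_comm _ _ _

end Pool.Agent.ND.H46
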