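import Pool.Agent.Helper32_ND.Stmts

/-!
# The n/d theorem, module FAM: families with a given value, uniqueness, integrality (helper46)
-/

set_option autoImplicit false
set_option linter.unusedVariables false
set_option linter.unusedSectionVars false

namespace Pool.Agent.ND.H46

open Finset Pool.Agent.ND

variable {ι : Type} [Fintype ι] [DecidableEq ι] {M : ℕ} {A : Arr ι (M + 2)} {K : Type} [Field K]
  [Algebra ℂ K]

theorem T_neg (P : Pts A) (ρ : ι → K) (j : ι) (x : OS A K (M + 2)) :
    T P (fun i => - ρ i) j x = - T P ρ j x := by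
  rw [T_apply, T_apply, wX_apply, wX_apply, ← Finset.sum_neg_distrib]
  refine Finset.sum_congr rfl fun i _ => ?_
  rw [neg_smul]

theorem comm' (hC : CommStmt) (P : Pts A) (ρ : ι → K) (j k : ι) (x : OS A K (M + 2)) :
    T P (fun i => ρ i + ev k i + ev j i) j (T P (fun i => ρ i + ev k i) k x)
      = T P (fun i => ρ i + ev j i + ev k i) k (T P (fun i => ρ i + ev j i) j x) := by
  have h := hC ι M A P K (fun i => -(ρ i + ev k i + ev j i)) j k x
  have e1 : (fun i => -(ρ i + ev k i + ev j i) + ev (K := K) j i)
      = fun i => -(ρ i + ev (K := K) k i) := by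
    funext i
    ring
  have e2 : (fun i => -(ρ i + ev k i + ev j i) + ev (K := K) k i)
      = fun i => -(ρ i + ev (K := K) j i) := by
    funext i
    ring
  have e3 : (fun i => ρ i + ev (K := K) k i + ev j i) = fun i => ρ i + ev (K := K) j i + ev k i := by
    funext i
    ring
  rw [e1, e2, T_neg, T_neg, T_neg, T_neg, map_neg, map_neg, neg_neg, neg_neg] at h
  rw [h, e3]

/-- the family on lists -/
noncomputable def tl (P : Pts A) (σ : ι → K) (c : OS A K (M + 2)) : List ι → OS A K (M + 2)
  | [] => c
  | j :: w => T P (fun i => σ i + ((w.count i : ℕ) : K) + ev j i) j (tl P σ c w)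

theorem ev_eq (j i : ι) : ev (K := K) j i = if j = i then 1 else 0 := by
  unfold ev
  by_cases h : j = i
  · subst h
    rw [Pi.single_eq_same, if_pos rfl]
  · rw [Pi.single_eq_of_ne (Ne.symm h), if_neg h]

theorem count_cast (w : List ι) (j i : ι) :
    (((j :: w).count i : ℕ) : K) = ((w.count i : ℕ) : K) + ev j i := by
  rw [List.count_cons, ev_eq, Nat.cast_add]
  congr 1
  by_cases h : j = i
  · subst h
    simp
  · simp [h]

theorem tl_perm (hC : CommStmt) (P : Pts A) (σ : ι → K) (c : OS A K (M + 2)) {w w' : List ι}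
    (h : w.Perm w') : tl P σ c w = tl P σ c w' := by
  induction h with
  | nil => rfl
  | @cons x l₁ l₂ hp ih =>
    show T P _ x _ = T P _ x _
    rw [ih]
    have e : (fun i => σ i + ((List.count i l₁ : ℕ) : K) + ev x i)
        = fun i => σ i + ((List.count i l₂ : ℕ) : K) + ev x i :=
      funext fun i => by rw [hp.count_eq i]
    rw [e]
  | swap x y l =>
    show T P (fun i => σ i + (((x :: l).count i : ℕ) : K) + ev y i) y
        (T P (fun i => σ i + ((l.count i : ℕ) : K) + ev x i) x (tl P σ c l))
      = T P (fun i => σ i + (((y :: l).count i : ℕ) : K) + ev x i) x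
        (T P (fun i => σ i + ((l.count i : ℕ) : K) + ev y i) y (tl P σ c l))
    have h := comm' hC P (fun i => σ i + ((l.count i : ℕ) : K)) y x (tl P σ c l)
    have e1 : ∀ a b : ι, (fun i => σ i + (((a :: l).count i : ℕ) : K) + ev b i)
        = fun i => σ i + ((l.count i : ℕ) : K) + ev a i + ev b i := by
      intro a b
      funext i
      rw [count_cast]
      ring
    rw [e1, e1]
    exact h
  | trans _ _ ih1 ih2 => exact ih1.trans ih2

/-- the multiset of a function -/
def ms (κ : ι → ℕ) : Multiset ι := ∑ i, Multiset.replicate (κ i) i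

theorem ms_add (κ : ι → ℕ) (j : ι) : ms (κ + Pi.single j 1) = j ::ₘ ms κ := by
  unfold ms
  have h : ∀ i, Multiset.replicate ((κ + Pi.single j 1 : ι → ℕ) i) i
      = Multiset.replicate (κ i) i + if i = j then {j} else 0 := by
    intro i
    rw [Pi.add_apply]
    by_cases h : i = j
    · subst h
      rw [Pi.single_eq_same, if_pos rfl, Multiset.replicate_add]
      rfl
    · rw [Pi.single_eq_of_ne h, if_neg h]
      simp
  rw [Finset.sum_congr rfl fun i _ => h i, Finset.sum_add_distrib, Finset.sum_ite_eq', if_pos
    (Finset.mem_univ j), add_comm, Multiset.singleton_add]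

theorem ms_count (κ : ι → ℕ) (i : ι) : (ms κ).count i = κ i := by
  unfold ms
  rw [Multiset.count_sum', Finset.sum_eq_single i]
  · rw [Multiset.count_replicate_self]
  · intro j _ hj
    rw [Multiset.count_replicate, if_neg hj]
  · intro h
    exact absurd (Finset.mem_univ i) h

theorem toList_count (κ : ι → ℕ) (i : ι) : (ms κ).toList.count i = κ i := by
  have h : ((ms κ).toList : Multiset ι).count i = κ i := by
    rw [Multiset.coe_toList, ms_count]
  rwa [Multiset.coe_count] at h

theorem fam_tl (hC : CommStmt) (P : Pts A) (σ : ι → K) (c : OS A K (M + 2)) :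
    IsFam P σ fun κ => tl P σ c (ms κ).toList := by
  intro κ j
  have hp : (ms (κ + Pi.single j 1)).toList.Perm (j :: (ms κ).toList) := by
    rw [← Multiset.coe_eq_coe, Multiset.coe_toList, ms_add, ← Multiset.cons_coe,
      Multiset.coe_toList]
  show tl P σ c (ms (κ + Pi.single j 1)).toList = _
  rw [tl_perm hC P σ c hp]
  show T P (fun i => σ i + (((ms κ).toList.count i : ℕ) : K) + ev j i) j _ = _
  simp only [toList_count]

theorem tl_surj (hB : TbijStmt) (P : Pts A) (σ : ι → K)
    (hσ : ∀ κ : ι → ℕ, NR fun i => σ i + (κ i : K)) (w : List ι) (y : OS A K (M + 2)) :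
    ∃ c, tl P σ c w = y := by
  induction w generalizing y with
  | nil => exact ⟨y, rfl⟩
  | cons j w ih =>
    have hn : NR fun i => σ i + ((w.count i : ℕ) : K) + ev j i := by
      have := hσ fun i => (j :: w).count i
      have e : (fun i => σ i + (((j :: w).count i : ℕ) : K))
          = fun i => σ i + ((w.count i : ℕ) : K) + ev j i := by
        funext i
        rw [count_cast]
        ring
      rwa [e] at this
    obtain ⟨z, hz⟩ := ((hB ι M A P K _ j).1 hn).2 y
    obtain ⟨c, hc⟩ := ih z
    refine ⟨c, ?_⟩
    show T P _ j (tl P σ c w) = y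
    rw [hc]
    exact hz

theorem ind_up {p : (ι → ℕ) → Prop} (h0 : p 0)
    (hs : ∀ (κ : ι → ℕ) (j : ι), p κ → p (κ + Pi.single j 1)) : ∀ κ, p κ := by
  have h : ∀ (N : ℕ) (κ : ι → ℕ), ∑ i, κ i = N → p κ := by
    intro N
    induction N with
    | zero =>
      intro κ hκ
      have : κ = 0 := by
        funext i
        have := (Finset.sum_eq_zero_iff_of_nonneg (fun i _ => Nat.zero_le (κ i))).1 hκ i
          (Finset.mem_univ i)
        exact this
      rw [this]
      exact h0
    | succ N ih =>
      intro κ hκ
      have hex : ∃ j, κ j ≠ 0 := by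
        by_contra hc
        push Not at hc
        rw [Finset.sum_eq_zero fun i _ => hc i] at hκ
        omega
      obtain ⟨j, hj⟩ := hex
      have e : κ = (fun i => κ i - (Pi.single j 1 : ι → ℕ) i) + Pi.single j 1 := by
        funext i
        rw [Pi.add_apply]
        by_cases h : i = j
        · subst h
          rw [Pi.single_eq_same]
          omega
        · rw [Pi.single_eq_of_ne h]
          omega
      rw [e]
      refine hs _ j (ih _ ?_)
      have h2 : ∑ i, κ i = ∑ i, (κ i - (Pi.single j 1 : ι → ℕ) i) + 1 := by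
        conv_lhs => rw [e]
        simp only [Pi.add_apply]
        rw [Finset.sum_add_distrib]
        congr 1
        rw [Finset.sum_eq_single j]
        · rw [Pi.single_eq_same]
        · intro i _ hi
          rw [Pi.single_eq_of_ne hi]
        · intro h
          exact absurd (Finset.mem_univ _) h
      omega
  intro κ
  exact h _ κ rfl

theorem fam (hC : CommStmt) (hB : TbijStmt) (hS : TsurStmt) : FamStmt := by
  intro ι _ _ M A P K _ _ σ
  refine ⟨fun hσ κ₀ y => ?_, fun t t' ht ht' κ₀ h0 => ?_, fun O hO hσ t ht κ₀ h0 => ?_⟩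
  · obtain ⟨c, hc⟩ := tl_surj hB P σ hσ (ms κ₀).toList y
    exact ⟨_, fam_tl hC P σ c, hc⟩
  · refine ind_up ?_ ?_
    · rw [add_zero]
      exact h0
    · intro κ j h
      rw [← add_assoc, ht, ht', h]
  · refine ind_up ?_ ?_
    · rw [add_zero]
      exact h0
    · intro κ j h
      rw [← add_assoc, ht]
      refine (hS ι M A P K O hO _ j).1 (fun i => ?_) _ h
      refine O.add_mem (O.add_mem (hσ i) (natCast_mem O _)) ?_
      rw [ev_eq]
      split_ifs
      · exact O.one_mem
      · exact O.zero_mem

end Pool.Agent.ND.H46
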